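import Mathlib
import Pool.Agent.Lib.MP_5acba2_pr.Defs
import Pool.Agent.Lib.MP_5acba2_pr.Final

/-!
MP_5acba2_pr, question Q1: the quenched free energy of the charged polymer is self-averaging, in
every dimension `d ≥ 1`, for every `β > 0` and every `p ∈ (0,1)`.
-/

set_option autoImplicit false

namespace Pool.Agent.Results.MP_5acba2_pr.SelfAveraging

open MeasureTheory Filter ProbabilityTheory
open Pool.Agent.Lib.MP_5acba2_pr

/-- For every `d ≥ 1`, `β > 0` and `p ∈ (0,1)` there is a constant `f` such that for every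
family `X` of iid charges with `P(X_i = 1) = p` and `P(X_i = -1) = 1 - p`, defined on any
probability space, `log Z_n^{β,X} / n` converges almost surely to `f`. -/
theorem result :
    ∀ (d : ℕ) (β p : ℝ), 1 ≤ d → 0 < β → 0 < p → p < 1 →
      ∃ f : ℝ, ∀ (Ω : Type) [MeasurableSpace Ω] (P : Measure Ω) [IsProbabilityMeasure P]
        (X : ℕ → Ω → ℝ), (∀ i, Measurable (X i)) → iIndepFun X P →
        (∀ i, P {ω | X i ω = 1} = ENNReal.ofReal p) →
        (∀ i, P {ω | X i ω = -1} = ENNReal.ofReal (1 - p)) →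
        ∀ᵐ ω ∂P, Tendsto
          (fun n : ℕ => Real.log (partitionFunction d β (fun i => X i ω) n) / n) atTop
          (nhds f) := by
  intro d β p hd hβ hp0 hp1
  obtain ⟨f, hf⟩ := all_limit hd (b := β / 2) (by positivity) hp0 hp1
  refine ⟨f + β / 2, ?_⟩
  intro Ω _ P _ X hX hind h1 h2
  exact transfer hd hp0 hp1 hf hX hind h1 h2

end Pool.Agent.Results.MP_5acba2_pr.SelfAveraging
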